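import Pool.Agent.Helper49.MW.AP
import Pool.Agent.Helper29.MW.LA1
import Pool.Agent.Helper54.MW.PB

/-!
# MW swarm, part ST: stability
-/

set_option autoImplicit false
set_option linter.unusedSectionVars false

open Polynomial Module Pool.Agent.Helper88.MW

namespace Pool.Agent.Helper6.MW

open Pool.Agent.Helper49.MW Pool.Agent.Helper29.MW Pool.Agent.Helper54.MW

theorem st_step {K : Type} [Field K] {E : Type} [AddCommGroup E] [Module K E]
    (β : E →ₗ[K] E →ₗ[K] K) (V V' : Submodule K E) (hVV : V' ≤ V) [FiniteDimensional K V]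
    [FiniteDimensional K V'] (a b c : E →ₗ[K] E) (ha : ∀ v ∈ V', a v ∈ V)
    (adj1 : ∀ v ∈ V', ∀ y, β v (c y) = β (a v) y) (adj2 : ∀ x, ∀ v ∈ V', β x (a v) = β (b x) v)
    (X : Submodule K E) {C0 C1 C2 : ℕ} (h1 : Ap C1 (X.map b) X) (h0 : Ap C0 V (V.comap c))
    (h2 : finrank K V ≤ finrank K V' + C2) :
    Ap (C0 + (C1 + C2)) (V ⊓ (X.map (aL β V)).comap (aR β V))
      ((V ⊓ (X.map (aL β V)).comap (aR β V)).comap c) := by
  let r : (V →ₗ[K] K) →ₗ[K] (V' →ₗ[K] K) := (Submodule.inclusion hVV).dualMap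
  let inc : V' →ₗ[K] V := (a.comp V'.subtype).codRestrict V (fun v => ha v v.2)
  let mm : (V →ₗ[K] K) →ₗ[K] (V' →ₗ[K] K) := inc.dualMap
  have e1 : ∀ y, r (aR β V (c y)) = mm (aR β V y) := by
    intro y
    ext v
    exact adj1 v v.2 y
  have e2 : ∀ x, mm (aL β V x) = r (aL β V (b x)) := by
    intro x
    ext v
    exact adj2 x v v.2
  have hker : finrank K (LinearMap.ker r) ≤ C2 := by
    have g1 := LinearMap.finrank_range_add_finrank_ker r
    have g2 : Function.Surjective r :=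
      LinearMap.dualMap_surjective_of_injective (Submodule.inclusion_injective hVV)
    rw [LinearMap.range_eq_top.2 g2, finrank_top] at g1
    have g3 : finrank K (V →ₗ[K] K) = finrank K V := Subspace.dual_finrank_eq
    have g4 : finrank K (V' →ₗ[K] K) = finrank K V' := Subspace.dual_finrank_eq
    omega
  have k3 := ap_comap (ap_map (ap_map h1 (aL β V)) r) r
  have k4 : Ap C2 (((X.map (aL β V)).map r).comap r) (X.map (aL β V)) := ap_comap_map r hker _
  have k5 := ap_comap (ap_comap (ap_trans k3 k4) (aR β V)) c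
  rw [Submodule.comap_inf]
  refine ap_inf (ap_mono h0 le_rfl inf_le_left le_rfl) (ap_mono k5 le_rfl ?_ le_rfl)
  intro y hy
  rw [Submodule.mem_comap, Submodule.mem_comap, Submodule.mem_comap, e1]
  obtain ⟨x, hx, hxy⟩ := hy.2
  rw [← hxy, e2]
  exact Submodule.mem_map_of_mem (Submodule.mem_map_of_mem (Submodule.mem_map_of_mem hx))

variable {p : ℕ} [Fact p.Prime] {F : Type} [Field F] [Fintype F] [Algebra (ZMod p) F]

theorem st (j : ℕ) (i : ℕ) (c : F[X]) (hc : c ≠ 0) : ∃ C : ℕ, ∀ (l : F[X] →ₗ[ZMod p] ZMod p)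
    (d : ℕ), Ap C (A (bet j l) (Vd p F d) i) ((A (bet j l) (Vd p F d) i).comap (mu c)) := by
  induction i generalizing c with
  | zero => exact ⟨0, fun l d => ap_le bot_le⟩
  | succ i ih =>
    obtain ⟨C1, hC1⟩ := ih ((c ^ (p ^ j)) ^ (p ^ j)) (pow_ne_zero _ (pow_ne_zero _ hc))
    refine ⟨finrank (ZMod p) F * c.natDegree +
      (C1 + finrank (ZMod p) F * (p ^ j * c.natDegree)), fun l d => ?_⟩
    have := pb_fin (p := p) (F := F) d
    have := pb_fin (p := p) (F := F) (d - p ^ j * c.natDegree)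
    have hA : A (bet j l) (Vd p F d) (i + 1) = Vd p F d ⊓
        ((A (bet j l) (Vd p F d) i).map (aL (bet j l) (Vd p F d))).comap
          (aR (bet j l) (Vd p F d)) := rfl
    rw [hA]
    refine st_step (bet j l) (Vd p F d) (Vd p F (d - p ^ j * c.natDegree))
      (pb_mono (Nat.sub_le _ _)) (mu (c ^ (p ^ j))) (mu ((c ^ (p ^ j)) ^ (p ^ j))) (mu c)
      (fun v hv => pb_mul natDegree_pow_le hv) (fun v _ y => (pb_adj j l c v y).symm)
      (fun x v _ => (pb_adj j l (c ^ (p ^ j)) x v).symm) _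
      (ap_mono (ap_map (hC1 l d) (mu ((c ^ (p ^ j)) ^ (p ^ j)))) le_rfl le_rfl
        (Submodule.map_comap_le _ _)) ?_ ?_
    · refine ap_mono (pb_ap d c.natDegree) le_rfl le_rfl ?_
      intro x hx
      exact pb_mul le_rfl hx
    · rw [pb_finrank, pb_finrank, ← mul_add]
      exact Nat.mul_le_mul_left _ (by omega)

end Pool.Agent.Helper6.MW
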