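import Pool.Agent.Helper6.MW.ST
import Pool.Agent.Helper49.MW.GR
import Pool.Agent.Helper54.MW.STR

/-!
# MW swarm, part ZG: growth of the left kernel
-/

set_option autoImplicit false
set_option linter.unusedSectionVars false

open Polynomial Module Pool.Agent.Helper88.MW

namespace Pool.Agent.Helper6.MW

open Pool.Agent.Helper49.MW Pool.Agent.Helper29.MW Pool.Agent.Helper54.MW

variable {p : ℕ} [Fact p.Prime] {F : Type} [Field F] [Fintype F] [Algebra (ZMod p) F]

theorem zg (j : ℕ) (hj : 1 ≤ j) (i : ℕ) : ∃ C : ℕ, ∀ (l : F[X] →ₗ[ZMod p] ZMod p) (d : ℕ),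
    Mi l d → p ^ j * finrank (ZMod p) (A (bet j l) (Vd p F d) i ⊓ H (bet j l) (Vd p F d) :
        Submodule _ _) ≤
      (p ^ j - 1) * finrank (ZMod p) (A (bet j l) (Vd p F d) i) + C := by
  obtain ⟨C, hC⟩ := st (p := p) (F := F) j i X X_ne_zero
  refine ⟨p ^ j * C, fun l d hM => ?_⟩
  have := pb_fin (p := p) (F := F) d
  have hAV := la_le (bet j l) (Vd p F d) i
  have hAf : FiniteDimensional (ZMod p) (A (bet j l) (Vd p F d) i) :=
    Submodule.finiteDimensional_of_le hAV
  rw [la_finrank (bet j l) (Vd p F d) i]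
  have hYA : A (bet j l) (Vd p F d) i ⊓ Z (bet j l) (Vd p F d) ≤ A (bet j l) (Vd p F d) i :=
    inf_le_left
  have hYf : FiniteDimensional (ZMod p) (A (bet j l) (Vd p F d) i ⊓ Z (bet j l) (Vd p F d) :
      Submodule _ _) := Submodule.finiteDimensional_of_le hYA
  have h1 := finrank_of_ap (ap_mono (hC l d) le_rfl hYA le_rfl)
  generalize hY : A (bet j l) (Vd p F d) i ⊓ Z (bet j l) (Vd p F d) = Y at *
  generalize hY' : Y ⊓ (A (bet j l) (Vd p F d) i).comap (mu X) = Y' at *
  have hY'Y : Y' ≤ Y := by rw [← hY']; exact inf_le_left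
  have hY'f : FiniteDimensional (ZMod p) Y' := Submodule.finiteDimensional_of_le hY'Y
  have h2 := gr (p ^ j) (by
    calc 2 ≤ p := (Fact.out : p.Prime).two_le
      _ = p ^ 1 := (pow_one p).symm
      _ ≤ p ^ j := Nat.pow_le_pow_right (Fact.out : p.Prime).pos hj) Y' (by
    intro x hx
    refine str j hj l d hM x fun i' hi' => ?_
    have h3 := hY'Y (hx i' hi')
    rw [← hY] at h3
    exact h3.2)
  have h3 : Y' ⊔ Y'.map (mu X) ≤ A (bet j l) (Vd p F d) i := by
    refine sup_le (hY'Y.trans hYA) ?_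
    rw [Submodule.map_le_iff_le_comap, ← hY']
    exact inf_le_right
  have h4 := Submodule.finrank_mono h3
  have h5 : (p ^ j - 1) * finrank (ZMod p) (Y' ⊔ Y'.map (mu X) : Submodule _ _) ≤
      (p ^ j - 1) * finrank (ZMod p) (A (bet j l) (Vd p F d) i) := Nat.mul_le_mul_left _ h4
  calc p ^ j * finrank (ZMod p) Y ≤ p ^ j * (finrank (ZMod p) Y' + C) := Nat.mul_le_mul_left _ h1
    _ = p ^ j * finrank (ZMod p) Y' + p ^ j * C := by ring
    _ ≤ (p ^ j - 1) * finrank (ZMod p) (A (bet j l) (Vd p F d) i) + p ^ j * C := by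
        have := h2.trans h5
        omega

end Pool.Agent.Helper6.MW
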